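import Pool.Agent.H77.BD.Targets

/-!
Row UPN of the board bct_modules (`MP_9d0bb7_lc`): the positive and the negative unipotent group.
-/

set_option autoImplicit false

namespace Pool.Agent.H13.BCT

open Set Matrix Pool.Agent.H77.BC Pool.Agent.H77.BD

variable {l : ℕ} {C : Matrix (Fin l) (Fin l) ℤ}

/-- the height -/
def ht (l : ℕ) : (Fin l → ℤ) →+ ℤ where
  toFun v := ∑ i, v i
  map_zero' := by simp
  map_add' v w := by simp [Finset.sum_add_distrib]

theorem exists_ne (β : Root C) : ∃ i, β.1 i ≠ 0 := by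
  by_contra h
  push Not at h
  exact root_ne_zero β (funext h)

theorem ht_pos (β : Root C) (h : IsPos β) : 0 < ht l β.1 := by
  obtain ⟨i, hi⟩ := exists_ne β
  exact Finset.sum_pos' (fun j _ => h j)
    ⟨i, Finset.mem_univ i, lt_of_le_of_ne (h i) (Ne.symm hi)⟩

theorem ht_neg (β : Root C) (h : IsNeg β) : 0 < (-ht l) β.1 := by
  obtain ⟨i, hi⟩ := exists_ne β
  rw [AddMonoidHom.neg_apply, Left.neg_pos_iff]
  have h1 : 0 < ∑ j, -β.1 j := Finset.sum_pos' (fun j _ => by have := h j; omega)
    ⟨i, Finset.mem_univ i, by have := h i; omega⟩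
  rw [Finset.sum_neg_distrib, Left.neg_pos_iff] at h1
  exact h1

theorem neg_iff (hPOS : T_POS) (hC : Cartan C) (β : Root C) : IsNeg β ↔ ¬ IsPos β := by
  constructor
  · intro h1 h2
    obtain ⟨i, hi⟩ := exists_ne β
    have := h1 i
    have := h2 i
    omega
  · intro h
    exact ((hPOS hC).1 β).resolve_left h

theorem Ug_fin {Γ F : Type} [Group Γ] (x : Root C → F → Γ) (p : Root C → Prop)
    (Ψ : Finset (Root C)) (h : ∀ β, β ∈ Ψ ↔ p β) : Ug x p = Ug x (fun β => β ∈ Ψ) := by
  have e : p = fun β => β ∈ Ψ := funext fun β => propext (h β).symm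
  rw [e]

theorem pf_UPN {M : Type} (U : RU M) (hPOS : T_POS) (hUPS : T_UPS U) : T_UPN U := by
  classical
  intro l C hC F Γ _ _ _ _ _ _ x τ hCD hx
  have hfr := finRoot hC
  have hft : Fintype (Root C) := Fintype.ofFinite _
  obtain ⟨P, hP⟩ : ∃ P : Finset (Root C), ∀ β, β ∈ P ↔ IsPos β :=
    ⟨Finset.univ.filter IsPos, fun β => by simp⟩
  obtain ⟨N, hN⟩ : ∃ N : Finset (Root C), ∀ β, β ∈ N ↔ IsNeg β :=
    ⟨Finset.univ.filter IsNeg, fun β => by simp⟩
  have h1 := hUPS hC hCD hx (ht l) P (fun β hβ => ht_pos β ((hP β).1 hβ))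
    (fun β hβ γ hγ δ hδ => (hP δ).2 fun i => by
      have e1 := (hP β).1 hβ i
      have e2 := (hP γ).1 hγ i
      rw [hδ, Pi.add_apply]
      omega)
  have h2 := hUPS hC hCD hx (-ht l) N (fun β hβ => ht_neg β ((hN β).1 hβ))
    (fun β hβ γ hγ δ hδ => (hN δ).2 fun i => by
      have e1 := (hN β).1 hβ i
      have e2 := (hN γ).1 hγ i
      rw [hδ, Pi.add_apply]
      omega)
  have hcard : P.card + N.card = Nat.card (Root C) := by
    rw [Nat.card_eq_fintype_card, ← Finset.card_univ, ← Finset.card_union_of_disjoint]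
    · congr 1
      ext β
      simp only [Finset.mem_union, Finset.mem_univ, iff_true]
      rw [hP, hN, neg_iff hPOS hC]
      exact em _
    · rw [Finset.disjoint_left]
      intro β h3 h4
      exact (neg_iff hPOS hC β).1 ((hN β).1 h4) ((hP β).1 h3)
  refine ⟨?_, ?_, ?_, fun i => ?_⟩
  · rw [Ug_fin x IsPos P hP]
    exact h1.1
  · rw [Ug_fin x IsNeg N hN]
    exact h2.1
  · rw [Ug_fin x IsPos P hP, Ug_fin x IsNeg N hN, ← hcard, add_mul]
    exact add_le_add h1.2 h2.2
  · rw [Ug_fin x (fun β => IsPos β ∧ β.1 ≠ si i)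
      (Finset.univ.filter fun β => IsPos β ∧ β.1 ≠ si i) (fun β => by simp)]
    refine (hUPS hC hCD hx (ht l) _ ?_ ?_).1
    · intro β hβ
      rw [Finset.mem_filter] at hβ
      exact ht_pos β hβ.2.1
    · intro β hβ γ hγ δ hδ
      rw [Finset.mem_filter] at hβ hγ ⊢
      refine ⟨Finset.mem_univ _, fun j => ?_, fun hs => ?_⟩
      · have e1 := hβ.2.1 j
        have e2 := hγ.2.1 j
        rw [hδ, Pi.add_apply]
        omega
      · rw [hδ] at hs
        have hz : ∀ j, j ≠ i → β.1 j = 0 ∧ γ.1 j = 0 := by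
          intro j hj
          have e3 := congrFun hs j
          unfold si at e3
          rw [Pi.add_apply, Pi.single_eq_of_ne hj] at e3
          have e1 := hβ.2.1 j
          have e2 := hγ.2.1 j
          omega
        have e3 := congrFun hs i
        unfold si at e3
        rw [Pi.add_apply, Pi.single_eq_same] at e3
        have e1 := hβ.2.1 i
        have e2 := hγ.2.1 i
        have e4 : β.1 i = 0 ∨ γ.1 i = 0 := by omega
        rcases e4 with e4 | e4
        · refine root_ne_zero β (funext fun j => ?_)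
          by_cases hj : j = i
          · rw [hj]
            exact e4
          · exact (hz j hj).1
        · refine root_ne_zero γ (funext fun j => ?_)
          by_cases hj : j = i
          · rw [hj]
            exact e4
          · exact (hz j hj).2

end Pool.Agent.H13.BCT
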